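import Pool.Agent.Q20.BL.Blp

/-!
# The defect of the equivariant Beilinson conjecture is local
-/

set_option autoImplicit false

namespace Pool.Agent.Results.MP_a93ca1_nt.BeilinsonDefectIsLocal

open NumberField Pool.Agent.Q20.RS.RL Pool.Agent.Q20.RS.BK

/-- **Theorem.** Let `K` be a number field, `T` a set of prime numbers, `M > 0`. For a finite
extension `F` of `K` let `V` be the set of the virtual characters of `Gal(K̄/F)` a positive multiple
of which is an integral combination of characters induced from linear characters of finite
extensions of `F` which are unramified at all finite places outside `T` (for empty `T`: class group
characters).
(1) The local-global principle for `V`: a virtual character is in `V` if and only if its restrictions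
to the decomposition groups outside `T` are combinations of characters induced from unramified linear
characters, if and only if it is constant on the elements of a decomposition group which generate the
same closed subgroup and are congruent modulo inertia; trivial characters and totally complex fields
of degree divisible by `M` suffice. (2) Examples: a linear character is in `V` if and only if its
square is unramified outside `T`.
Let `k` be a natural number and `H_N ⊆ ℂ ⊗ V_N⁺` be given for the number fields `N` containing `K`
(the regulators of the groups `K_{2k-1}(N) ⊗ ℚ`). A level is a finite normal extension `N` of `K`
with a finite set of primes (stable, containing primes above the ramified primes) and an automorphism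
`θ` of the representation `ℂ ⊗ V_N⁺` of `Gal(N/K)` which maps `B_N⁺` onto `H_N`; `A_k(χ)` is the
quotient of the determinant of `θ` on the `χ`-part and of the leading coefficient of `L_S(s, χ)` at
`s = 1-k`. Beilinson's conjecture for abelian `N/F` says `A_k(χ)^σ = A_k(χ^σ)` for all linear
characters `χ` of `Gal(N/F)` and all automorphisms `σ` of `ℂ`.
(3) The numbers `A_k(χ) ≠ 0` and the L-functions are well defined at all sufficiently large levels.
(4) Powers of the Artin L-functions and of the numbers `A_k(χ)` of the characters in `V` are products
of powers of those of trivial and class group characters.
(5) Suppose that for all trivial and class group characters `ψ` there is `m > 0` with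
`(A_k(ψ)^m)^σ = A_k(ψ^σ)^m` for all `σ` (at all sufficiently large levels). Then this holds for all
characters in `V`. For every extension `L'/F` whose inertia groups outside `T` have exponent dividing
two there is `m > 0` with this property for all characters of `Gal(L'/F)`. For all characters `χ` the
defect `(A_k(χ)^σ / A_k(χ^σ))_σ`, in the group of germs at the large levels modulo torsion, is a
product of unique local constants, which depend only on the restrictions of `χ` to the decomposition
groups.
(6) If `A_k(ψ)` is algebraic for trivial and class group characters then for all characters in
`V`. -/
theorem result (K : Type) [Field K] [NumberField K] : Principle K ∧ Examples K ∧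
    ∀ (k : ℕ) (H : Motivic K k), BL.WellDefined K k H ∧ BL.Products K k H ∧ BL.Beilinson K k H ∧
      BL.Algebraicity K k H :=
  ⟨principle, examples, fun _ H => ⟨BL.well_defined H, BL.products H, BL.beilinson H,
    BL.algebraicity H⟩⟩

end Pool.Agent.Results.MP_a93ca1_nt.BeilinsonDefectIsLocal
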