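import Pool.Agent.Q280.SP.Beil

/-!
# The equivariant Beilinson conjecture over totally real fields: commuting complex conjugations
-/

set_option autoImplicit false

namespace Pool.Agent.Results.MP_a93ca1_nt.ExactForCommutingConjugations

open NumberField Pool.Agent.Q20.RS.RL

/-- **Theorem.** Let `K` be a number field, `k ≥ 2`, and `H` a family of subsets of the spaces
`ℂ ⊗ V⁺` (the groups `K_{2k-1}(N) ⊗ ℚ`).
(0) The numbers `A_k(χ)` at all sufficiently large levels are those of the representations.
(1) A character of `Gal(K̄/F)`, `F` totally real, is an integral combination of characters induced
from linear characters over totally real fields if and only if the complex conjugations commute in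
the representation.
(2) Grant Beilinson's equality for the linear characters which are unramified at all finite places and for
the linear characters of parity `(-1)^k` over totally real fields (Siegel, Klingen). Then it holds for all
linear characters over totally real fields and for all the characters of (1). -/
theorem result (K : Type) [Field K] [NumberField K] (k : ℕ) (H : Pool.Agent.Q20.RS.BK.Motivic K k) :
    BL.WellDefined K k H ∧ InductionReal K ∧ Pool.Agent.Q280.SP.BX.RealEquality K k H :=
  ⟨BL.well_defined H, induction_real, Pool.Agent.Q280.SP.BX.realEquality H⟩

end Pool.Agent.Results.MP_a93ca1_nt.ExactForCommutingConjugations
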