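import Pool.Agent.Q280.SP.Beil

/-!
# The equivariant Beilinson conjecture: twists of linear characters
-/

set_option autoImplicit false

namespace Pool.Agent.Results.MP_a93ca1_nt.TwistersAndUnramifiedExtensions

open NumberField Pool.Agent.Q20.RS.RL

/-- **Theorem.** Let `K` be a number field, `k ≥ 2`, and `H` a family of subsets of the spaces
`ℂ ⊗ V⁺` (the groups `K_{2k-1}(N) ⊗ ℚ`).
(0) The numbers `A_k(χ)` at all sufficiently large levels are those of the representations.
(1) Let `ψ` be a linear character of `Gal(K̄/F)` and `η ≠ 1` a quadratic character which is trivial on the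
decomposition groups of the finite places at which `ψ` is ramified. There are finite extensions
`F₁, F₂ ⊆ F₃` of `F` over which `ψ` becomes unramified at all finite places, such that
`ψ + Ind ψ|F₃ = ψη + Ind ψ|F₁ + Ind ψ|F₂`; so
`L(s, ψ) L(s, ψ|F₃) = L(s, ψη) L(s, ψ|F₁) L(s, ψ|F₂)`, and the same holds for the numbers `A_k`.
(2) Such `η` exist with prescribed values at the complex conjugations.
(3) Grant Beilinson's equality for the linear characters which are unramified at all finite places.
Then it holds for `ψη` if and only if it holds for `ψ`, so over totally real fields for a linear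
character if and only if for a twist of parity `(-1)^k`. -/
theorem result (K : Type) [Field K] [NumberField K] (k : ℕ) (H : Pool.Agent.Q20.RS.BK.Motivic K k) :
    BL.WellDefined K k H ∧ BX.Relations K k H ∧ Twists K ∧ Pool.Agent.Q280.SP.BX.TwistEquality K k H :=
  ⟨BL.well_defined H, BX.relations H, twists, Pool.Agent.Q280.SP.BX.twistEquality H⟩

end Pool.Agent.Results.MP_a93ca1_nt.TwistersAndUnramifiedExtensions
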