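import Pool.Agent.Q20.BK.Bkp

/-!
# The equivariant Beilinson conjecture up to powers: reduction to unramified extensions
-/

set_option autoImplicit false

namespace Pool.Agent.Results.MP_a93ca1_nt.UnramifiedExtensions

open NumberField Pool.Agent.Q20.RS Pool.Agent.Q20.RS.BK

/-- **Theorem.** Let `K` be a totally real number field (e.g. `ℚ`; every number field is a finite
extension of `ℚ`), `k` a natural number, and let `H_N ⊆ ℂ ⊗ V_N⁺` be given for the number fields `N`
containing `K` (the regulators of the groups `K_{2k-1}(N) ⊗ ℚ`). A level is a finite normal extension
`N` of `K` with a finite set `T` of primes (stable, containing primes above the ramified primes) and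
an automorphism `θ` of the representation `ℂ ⊗ V_N⁺` of `Gal(N/K)` which maps `B_N⁺` onto `H_N`. For a
character `χ` of `Gal(N/F)`, `A_k(χ)` is the quotient of the determinant of `θ` on the `χ`-part and of
the leading coefficient of `L_S(s, χ)` at `s = 1-k`; Beilinson's conjecture for abelian `N/F` says
`A_k(χ)^σ = A_k(χ^σ)` for all linear characters `χ` and all automorphisms `σ` of `ℂ`.
(0) The numbers `A_k(χ)` and L-functions `L_S(z, χ)` of characters `χ` of `Gal(K̄/F)` at all
sufficiently large levels are those of the representations of `Gal(N/F)`, and `A_k(χ) ≠ 0`.
(1) Let `s = 1` or `s = -1`, `ε` a quadratic or trivial character of `Gal(K̄/K)` with value `s` at the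
complex conjugations (it exists), `M > 0`, `S` a finite set of primes and `L` a finite extension of
`K`. For every virtual character `f` of `Gal(K̄/K)` a positive multiple of `f` is an integral
combination of characters induced from: trivial characters; class group characters, i.e. everywhere
unramified linear characters `ψ` of `Gal(K̄/F)`, `F` totally complex of degree divisible by `M`, in
which the places above `S` split completely, such that the completions of `F` above `S` contain
those of `L`; linear characters `ψ` over totally real fields with `ψ(c) = s` for all complex
conjugations such that for one prime `p` the character `ε ψ` is unramified outside `p` and trivial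
on the decomposition groups above the primes of `S` other than `p`.
(2) For every character `χ` of `Gal(K̄/F)`, `F/K` finite, there are `m > 0`, linear characters `ψ_i`
of these three kinds and integers `e_i` with `L_S(z, χ)^m = ∏ L_S(z, ψ_i)^{e_i}` for `Re z > 1` and
`A_k(χ)^m = ∏ A_k(ψ_i)^{e_i}` at all sufficiently large levels.
(3) Let `s = (-1)^k`. If for every linear character `ψ` of these three kinds there is `m > 0` with
`(A_k(ψ)^m)^σ = A_k(ψ^σ)^m` for all `σ` (known with `m = 1` for trivial characters, Borel, and over
totally real fields if `ψ(c) = (-1)^k`, Siegel and Klingen), then for every abelian extension `L'/F`,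
`F` finite over `K`, there is `m > 0` with `(A_k(χ)^m)^σ = A_k(χ^σ)^m` for all characters `χ` of
`Gal(L'/F)` and all `σ`, at all sufficiently large levels; and such an `m` exists for every character
`χ` of `Gal(K̄/F)`, not necessarily linear.
(4) If `A_k(ψ)` is algebraic for the linear characters `ψ` of these three kinds (at all sufficiently
large levels), then `A_k(χ)` is algebraic for every character `χ`. -/
theorem result (K : Type) [Field K] [NumberField K] [IsTotallyReal K] (k : ℕ) (H : Motivic K k) :
    WellDefined K k H ∧ Induction K ∧ Products K k H ∧ Reduction K k H ∧ Algebraicity K k H :=
  ⟨well_defined H, Pool.Agent.Q20.RS.induction, products H, reduction H, algebraicity H⟩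

end Pool.Agent.Results.MP_a93ca1_nt.UnramifiedExtensions
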